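import Pool.Agent.Lib.MP_a2d0bb_al.CM.Main

/-!
Two generators for countable sets of homeomorphisms of a closed smooth manifold.
-/

set_option autoImplicit false

open scoped Manifold ContDiff

namespace Pool.Agent.Results.MP_a2d0bb_al.Closed

theorem result (n : ℕ) (hn : 1 ≤ n) (M : Type) [TopologicalSpace M] [T2Space M] [CompactSpace M]
    [ChartedSpace (EuclideanSpace ℝ (Fin n)) M] [IsManifold (𝓡 n) ∞ M]
    (G : Subgroup (Equiv.Perm M))
    (hG : G = Subgroup.closure {h : Equiv.Perm M | Continuous h ∧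
      ∃ (ι : OpenPartialHomeomorph (EuclideanSpace ℝ (Fin n)) M) (c : EuclideanSpace ℝ (Fin n))
        (r : ℝ), Metric.closedBall c r ⊆ ι.source ∧
          ∀ z, z ∉ ι '' Metric.closedBall c r → h z = z}) :
    ∃ f ∈ G, ∀ S : Set (Equiv.Perm M), S.Countable → S ⊆ G →
      ∃ g ∈ G, S ⊆ Subgroup.closure ({f, g} : Set (Equiv.Perm M)) := by
  have : Nonempty (Fin n) := ⟨⟨0, hn⟩⟩
  subst hG
  exact Pool.Agent.Lib.MP_a2d0bb_al.CM.main M (EuclideanSpace ℝ (Fin n))

end Pool.Agent.Results.MP_a2d0bb_al.Closed
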