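import Pool.Agent.Lib.MP_a2d0bb_al.FG.Fin

set_option autoImplicit false

namespace Pool.Agent.Results.MP_a2d0bb_al.FirstGen

open Pool.Agent.Lib.MP_a2d0bb_al.FG Filter

/-- An increasing homeomorphism `f` of the line can be prescribed as the first of two generators
over every countable set exactly when it moves points near both ends of the line. -/
theorem result (f : Equiv.Perm ℝ) (hf : StrictMono f) :
    (∀ S : Set (Equiv.Perm ℝ), S.Countable → (∀ σ ∈ S, StrictMono σ) →
      ∃ g : Equiv.Perm ℝ, StrictMono g ∧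
        S ⊆ (Subgroup.closure ({f, g} : Set (Equiv.Perm ℝ)) : Set (Equiv.Perm ℝ))) ↔
    ((∀ R : ℝ, ∃ x, R < x ∧ f x ≠ x) ∧ ∀ R : ℝ, ∃ x, x < R ∧ f x ≠ x) := by
  constructor
  · intro h
    obtain ⟨a, a0, a1⟩ := mk_aut (fun t => t + 1) (fun s t h => by linarith)
      fun w => ⟨w - 1, by ring⟩
    obtain ⟨b, b0, b1⟩ := mk_aut (fun t => 2 * t) (fun s t h => by linarith)
      fun w => ⟨w / 2, by ring⟩
    obtain ⟨g, g0, g1⟩ := h {a, b} (Set.toFinite _).countable (by rintro _ (rfl | rfl) <;> assumption)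
    have key : ∀ (l : Filter ℝ) [l.NeBot], (∀ h ∈ Aut, Tendsto h l l) → ¬ ∀ᶠ t in l, f t = t := by
      intro l _ hl he
      obtain ⟨t, ht⟩ := (nec l hl hf g0 he (g1 (Or.inl rfl)) (g1 (Or.inr rfl))).exists
      rw [a1, b1, b1, a1] at ht
      linarith
    constructor <;> intro R <;> by_contra hR <;> push Not at hR
    · exact key atTop (fun h hh => (StrictMono.orderIsoOfSurjective h hh h.surjective).tendsto_atTop)
        ((eventually_gt_atTop R).mono hR)
    · exact key atBot (fun h hh => (StrictMono.orderIsoOfSurjective h hh h.surjective).tendsto_atBot)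
        ((eventually_lt_atBot R).mono hR)
  · rintro ⟨hr, hl⟩ S hS hA
    obtain ⟨s, hs⟩ := (hS.insert 1).exists_eq_range (Set.insert_nonempty _ _)
    obtain ⟨g, g0, g1⟩ := suff hf hr hl s fun n => by
      rcases (show s n ∈ insert 1 S from hs ▸ Set.mem_range_self n) with h | h
      · rw [h]; exact one_mem _
      · exact hA _ h
    refine ⟨g, g0, fun σ hσ => ?_⟩
    obtain ⟨n, rfl⟩ : σ ∈ Set.range s := hs ▸ Set.mem_insert_of_mem _ hσ
    exact g1 n

end Pool.Agent.Results.MP_a2d0bb_al.FirstGen
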