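import Pool.Agent.Lib.MP_a2d0bb_al.Inst

/-!
Countable sets of diffeomorphisms of a Euclidean space lie in groups with two generators.
-/

set_option autoImplicit false

namespace Pool.Agent.Results.MP_a2d0bb_al.FullGroup

open Pool.Agent.Lib.MP_a2d0bb_al

theorem result (n : ℕ) (hn : 1 ≤ n) (r : ℕ∞) (hr : 1 ≤ r)
    (S : Set (Equiv.Perm (EuclideanSpace ℝ (Fin n)))) (hS : S.Countable)
    (h : ∀ f ∈ S, ContDiff ℝ r f ∧ ContDiff ℝ r f.symm) :
    ∃ a b : Equiv.Perm (EuclideanSpace ℝ (Fin n)), (ContDiff ℝ r a ∧ ContDiff ℝ r a.symm) ∧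
      (ContDiff ℝ r b ∧ ContDiff ℝ r b.symm) ∧ ∀ f ∈ S, f ∈ Subgroup.closure {a, b} := by
  have : Nonempty (Fin n) := ⟨⟨0, hn⟩⟩
  obtain ⟨s, hs⟩ := (hS.insert 1).exists_eq_range (Set.insert_nonempty _ _)
  obtain ⟨a, ha, b, hb, k⟩ := full_dif (Order.one_le_iff_ne_zero.1 hr) s fun i => by
    rcases (hs ▸ Set.mem_range_self i : s i ∈ insert 1 S) with e | e
    · exact e ▸ one_mem _
    · exact h _ e
  refine ⟨a, b, ha, hb, fun f hf => ?_⟩
  obtain ⟨i, rfl⟩ : f ∈ Set.range s := hs ▸ Set.mem_insert_of_mem 1 hf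
  exact k i

end Pool.Agent.Results.MP_a2d0bb_al.FullGroup
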