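import Pool.Agent.Lib.MP_a2d0bb_al.Inst

/-!
Universal words in two letters for the diffeomorphism groups and the stable homeomorphism group
of a Euclidean space.
-/

set_option autoImplicit false

namespace Pool.Agent.Results.MP_a2d0bb_al.TwoGen

open Pool.Agent.Lib.MP_a2d0bb_al

theorem result : ∃ w : ℕ → FreeGroup (Fin 2), ∀ (n : ℕ), 1 ≤ n → ∀ (r : ℕ∞)
    (G : Set (Equiv.Perm (EuclideanSpace ℝ (Fin n)))),
      (r ≠ 0 → G = {f : Equiv.Perm (EuclideanSpace ℝ (Fin n)) |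
        ContDiff ℝ r f ∧ ContDiff ℝ r f.symm ∧ ∀ x, 0 < (fderiv ℝ f x).det}) →
      (r = 0 → G = Subgroup.closure {f : Equiv.Perm (EuclideanSpace ℝ (Fin n)) |
        Continuous f ∧ Continuous f.symm ∧ ∃ U : Set (EuclideanSpace ℝ (Fin n)),
          IsOpen U ∧ U.Nonempty ∧ ∀ x ∈ U, f x = x}) →
      ∀ s : ℕ → Equiv.Perm (EuclideanSpace ℝ (Fin n)), (∀ i, s i ∈ G) →
        ∃ a ∈ G, ∃ b ∈ G, ∀ i, FreeGroup.lift ![a, b] (w i) = s i := by
  refine ⟨Fil.uw (FreeGroup.of 0) (FreeGroup.of 1), fun n hn r G h1 h0 => ?_⟩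
  have : Nonempty (Fin n) := ⟨⟨0, hn⟩⟩
  obtain rfl : G = Stb (EuclideanSpace ℝ (Fin n)) r := by
    by_cases hr : r = 0
    · subst hr
      refine (h0 rfl).trans (congrArg _ (congrArg Subgroup.closure (Set.ext fun f =>
        and_assoc.symm.trans (and_congr_left' ?_))))
      exact and_congr contDiff_zero.symm contDiff_zero.symm
    · exact (h1 hr).trans (Set.ext fun f => and_assoc.symm.trans (stb_iff hr).symm)
  exact univ_stb

end Pool.Agent.Results.MP_a2d0bb_al.TwoGen
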